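import Pool.Agent.Work.MP_38bec5_lc.T.MainU

/-!
# Counting width of circular-arc graphs without a dominating edge
-/

/-- Every circular-arc graph in which every dominating edge contains a universal vertex (in
particular every circular-arc graph without a dominating edge) is defined among all finite graphs
by one sentence of first-order logic with counting quantifiers and four variables. -/
theorem Pool.Agent.Results.MP_38bec5_lc.NoDominatingEdge.result :
    ∀ (V : Type) [Finite V] [Nonempty V] (G : SimpleGraph V),
      PCA38.IsCA G → PCA38.DomU G → PCA38.DefinableIn 4 G :=
  PCA38.mainU
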