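import Pool.Agent.Work.MP_38bec5_lc.P.Main

/-!
# Counting width of proper circular-arc graphs

Every proper circular-arc graph has counting width at most three, and three is optimal.
-/

/-- Every proper circular-arc graph is defined among all finite graphs by one sentence of first-order
logic with counting quantifiers and three variables; some proper circular-arc graph (the hexagon)
is not defined by any such sentence with at most two variables. -/
theorem Pool.Agent.Results.MP_38bec5_lc.ProperCircularArc.result :
    (∀ (V : Type) [Finite V] [Nonempty V] (G : SimpleGraph V),
      PCA38.IsPCA G → PCA38.DefinableIn 3 G) ∧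
    ∃ G : SimpleGraph (Fin 6), PCA38.IsPCA G ∧ ∀ k ≤ 2, ¬ PCA38.DefinableIn k G :=
  PCA38.main
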